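import Pool.Agent.H700.HD.Norm
import Pool.Graph.R_pool_sql_team_seeded_620a6dc7.Helper17_Hall.Rects
import Pool.Graph.R_pool_sql_team_seeded_1acbe0a2.Y422.TG.Design
import Pool.Graph.R_seed8.TH528.GN.Main

/-!
# Symmetric designs and factorization norms
-/

set_option autoImplicit false

namespace Pool.Agent.H700.HD

open Finset Pool.Agent.Helper17_Hall

section

variable {v k lam : ℕ} {B : Fin v → Finset (Fin v)}

/-- the mixing inequality for matrices of small factorization norm -/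
theorem mixing (hk : 2 ≤ k) (hkv : k < v)
    (hr : ∀ x, (univ.filter (fun i => x ∈ B i)).card = k)
    (hp : ∀ x y : Fin v, x ≠ y → (univ.filter (fun i => x ∈ B i ∧ y ∈ B i)).card = lam)
    (hkk : (k : ℝ) * k = lam * ((v : ℝ) - 1) + k) (hlk : (lam : ℝ) ≤ k)
    (P Q : Finset (Fin v)) (F : Fin v → Fin v → ℝ) (g : ℝ) (hg : 0 ≤ g) (hF : NormLE F g) :
    (∑ i ∈ P, ∑ j ∈ Q, Dm k B i j * F i j) ^ 2 ≤
      ((v : ℝ) / k) ^ 2 * (k - lam) * (g ^ 2 * (P.card * Q.card)) := by
  classical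
  obtain ⟨L, x, y, hx, hy, h⟩ := hF
  set a : Fin L → Fin v → ℝ := fun l i => if i ∈ P then x i l else 0 with ha
  set b : Fin L → Fin v → ℝ := fun l j => if j ∈ Q then y j l else 0 with hb
  have e1 : ∑ i ∈ P, ∑ j ∈ Q, Dm k B i j * F i j =
      ∑ p : Fin L × Fin v, (∑ i, Dm k B i p.2 * a p.1 i) * b p.1 p.2 := by
    have h1 : ∑ i ∈ P, ∑ j ∈ Q, Dm k B i j * F i j =
        ∑ i : Fin v, ∑ j : Fin v, ∑ l : Fin L, Dm k B i j * (a l i * b l j) := by
      rw [← sum_subset (subset_univ P) (fun i _ hi => ?_)]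
      · refine sum_congr rfl fun i hi => ?_
        rw [← sum_subset (subset_univ Q) (fun j _ hj => ?_)]
        · refine sum_congr rfl fun j hj => ?_
          rw [h, mul_sum]
          refine sum_congr rfl fun l _ => ?_
          simp only [ha, hb, if_pos hi, if_pos hj]
        · refine sum_eq_zero fun l _ => ?_
          simp [hb, if_neg hj]
      · refine sum_eq_zero fun j _ => sum_eq_zero fun l _ => ?_
        simp [ha, if_neg hi]
    rw [h1, Fintype.sum_prod_type, sum_comm]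
    have h2 : ∀ j : Fin v, ∑ i : Fin v, ∑ l : Fin L, Dm k B i j * (a l i * b l j) =
        ∑ l : Fin L, (∑ i, Dm k B i j * a l i) * b l j := by
      intro j
      rw [sum_comm]
      refine sum_congr rfl fun l _ => ?_
      rw [sum_mul]
      exact sum_congr rfl fun i _ => by ring
    rw [sum_congr rfl fun j _ => h2 j, sum_comm]
  rw [e1]
  refine (sum_mul_sq_le_sq_mul_sq univ _ _).trans ?_
  have e2 : ∑ p : Fin L × Fin v, (∑ i, Dm k B i p.2 * a p.1 i) ^ 2 ≤
      ((v : ℝ) / k) ^ 2 * (k - lam) * (g * P.card) := by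
    rw [Fintype.sum_prod_type]
    calc ∑ l : Fin L, ∑ j : Fin v, (∑ i, Dm k B i j * a l i) ^ 2
        ≤ ∑ l : Fin L, ((v : ℝ) / k) ^ 2 * (k - lam) * ∑ i, a l i ^ 2 :=
          sum_le_sum fun l _ => quad hk hkv hr hp hkk hlk (a l)
      _ = ((v : ℝ) / k) ^ 2 * (k - lam) * ∑ i, ∑ l, a l i ^ 2 := by
          rw [← mul_sum, sum_comm]
      _ ≤ _ := by
          refine mul_le_mul_of_nonneg_left ?_ (mul_nonneg (sq_nonneg _) (by linarith))
          calc ∑ i, ∑ l, a l i ^ 2 ≤ ∑ i, if i ∈ P then g else 0 := by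
                refine sum_le_sum fun i _ => ?_
                by_cases hi : i ∈ P
                · simp only [ha, if_pos hi]
                  exact hx i
                · simp [ha, if_neg hi]
            _ = g * P.card := by
                rw [sum_ite_mem, univ_inter, sum_const, nsmul_eq_mul, mul_comm]
  have e3 : ∑ p : Fin L × Fin v, b p.1 p.2 ^ 2 ≤ g * Q.card := by
    rw [Fintype.sum_prod_type, sum_comm]
    calc ∑ j, ∑ l, b l j ^ 2 ≤ ∑ j, if j ∈ Q then g else 0 := by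
          refine sum_le_sum fun j _ => ?_
          by_cases hj : j ∈ Q
          · simp only [hb, if_pos hj]
            exact hy j
          · simp [hb, if_neg hj]
      _ = g * Q.card := by
          rw [sum_ite_mem, univ_inter, sum_const, nsmul_eq_mul, mul_comm]
  calc _ ≤ (((v : ℝ) / k) ^ 2 * (k - lam) * (g * P.card)) * (g * Q.card) :=
        mul_le_mul e2 e3 (sum_nonneg fun _ _ => sq_nonneg _)
          (mul_nonneg (mul_nonneg (sq_nonneg _) (by linarith)) (mul_nonneg hg (Nat.cast_nonneg _)))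
    _ = _ := by ring

/-- the number of the incident pairs in `P × Q` -/
noncomputable def incs (B : Fin v → Finset (Fin v)) (P Q : Finset (Fin v)) : ℝ :=
  ∑ i ∈ P, ∑ j ∈ Q, inc B i j

/-- The separation theorem. -/
theorem separation (hk : 2 ≤ k) (h2 : 2 * k ≤ v)
    (hr : ∀ x, (univ.filter (fun i => x ∈ B i)).card = k)
    (hp : ∀ x y : Fin v, x ≠ y → (univ.filter (fun i => x ∈ B i ∧ y ∈ B i)).card = lam)
    (hkk : (k : ℝ) * k = lam * ((v : ℝ) - 1) + k) (hlk : (lam : ℝ) ≤ k)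
    (P Q : Finset (Fin v)) (F : Fin v → Fin v → ℝ) (g δ : ℝ) (hg : 1 ≤ g) (hδ : 0 < δ) (hδ1 : δ ≤ 1)
    (hF : NormLE F g) (h1 : ∀ i ∈ P, ∀ j ∈ Q, i ∈ B j → 1 ≤ F i j)
    (h0 : ∀ i ∈ P, ∀ j ∈ Q, i ∉ B j → F i j ≤ 1 - δ) :
    δ ^ 2 * k * (P.card * Q.card) ≤ 16 * g ^ 2 * (v : ℝ) ^ 2 := by
  have hk0 : (0 : ℝ) < k := by
    have : 0 < k := by omega
    exact_mod_cast this
  have hv0 : (0 : ℝ) < v := by
    have : 0 < v := by omega
    exact_mod_cast this
  have hkv : k < v := by omega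
  set c : ℝ := (v : ℝ) / k with hc
  have hc2 : 2 ≤ c := by
    rw [hc, le_div_iff₀ hk0]
    exact_mod_cast h2
  set p : ℝ := (P.card : ℝ) * Q.card with hp'
  have hp0 : 0 ≤ p := by positivity
  set T : ℝ := ∑ i ∈ P, ∑ j ∈ Q, Dm k B i j with hT
  set TF : ℝ := ∑ i ∈ P, ∑ j ∈ Q, Dm k B i j * F i j with hTF
  set I : ℝ := incs B P Q with hI
  set M : ℝ := Real.sqrt (c ^ 2 * (k - lam) * p) with hM
  have hM0 : 0 ≤ M := Real.sqrt_nonneg _
  have hMM : M ^ 2 = c ^ 2 * (k - lam) * p :=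
    Real.sq_sqrt (mul_nonneg (mul_nonneg (sq_nonneg _) (by linarith)) hp0)
  have hTF1 : TF ≤ g * M := by
    have := mixing hk hkv hr hp hkk hlk P Q F g (by linarith) hF
    have e : TF ^ 2 ≤ (g * M) ^ 2 := by
      rw [mul_pow, hMM]
      calc TF ^ 2 ≤ _ := this
        _ = _ := by rw [hp']; ring
    exact abs_le_of_sq_le_sq' e (by positivity) |>.2
  have hT1 : - M ≤ T := by
    have := mixing hk hkv hr hp hkk hlk P Q (fun _ _ => 1) 1 (by norm_num) NormLE.one
    simp only [mul_one] at this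
    have e : T ^ 2 ≤ M ^ 2 := by
      rw [hMM]
      calc T ^ 2 ≤ _ := this
        _ = _ := by rw [hp']; ring
    exact abs_le_of_sq_le_sq' e hM0 |>.1
  have hTI : T = c * I - p := by
    rw [hT, hI, incs, mul_sum, hp']
    simp only [Dm]
    simp only [sum_sub_distrib, mul_sum, sum_const, nsmul_eq_mul, mul_one]
    rfl
  have hlow : T + δ * (p - I) ≤ TF := by
    have e1 : T + δ * (p - I) = ∑ i ∈ P, ∑ j ∈ Q, (Dm k B i j + δ * (1 - inc B i j)) := by
      rw [hT, hI, incs, hp']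
      simp only [sum_add_distrib, ← mul_sum, sum_sub_distrib, sum_const, nsmul_eq_mul, mul_one]
    rw [e1, hTF]
    refine sum_le_sum fun i hi => sum_le_sum fun j hj => ?_
    unfold Dm inc
    by_cases hij : i ∈ B j
    · simp only [if_pos hij]
      have := h1 i hi j hj hij
      nlinarith
    · simp only [if_neg hij]
      have := h0 i hi j hj hij
      linarith
  have hfin : δ * p ≤ 4 * g * M := by
    have e1 : I = (T + p) / c := by
      rw [hTI]
      field_simp
      ring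
    have hc0 : 0 < c := by linarith
    have e2 : δ * (p - I) = δ * p * (1 - 1 / c) - δ / c * T := by
      rw [e1]
      field_simp
      ring
    have e3 : δ / c ≤ 1 := by
      rw [div_le_one hc0]
      linarith
    have e4 : 0 ≤ δ / c := by positivity
    have e5 : (1 : ℝ) / 2 ≤ 1 - 1 / c := by
      have : 1 / c ≤ 1 / 2 := one_div_le_one_div_of_le (by norm_num) hc2
      linarith
    have e6 : - M ≤ T * (1 - δ / c) := by
      have h8 : 0 ≤ 1 - δ / c := by linarith
      have h9 : (-M) * (1 - δ / c) ≤ T * (1 - δ / c) := mul_le_mul_of_nonneg_right hT1 h8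
      have h10 : 0 ≤ M * (δ / c) := mul_nonneg hM0 e4
      linarith
    have e7 : δ * p * (1 / 2) ≤ δ * p * (1 - 1 / c) :=
      mul_le_mul_of_nonneg_left e5 (mul_nonneg hδ.le hp0)
    have e8 : T * (1 - δ / c) + δ * p * (1 - 1 / c) ≤ g * M := by
      have : T * (1 - δ / c) + δ * p * (1 - 1 / c) = T + δ * (p - I) := by
        rw [e2]
        ring
      rw [this]
      exact hlow.trans hTF1
    have e9 : 1 * M ≤ g * M := mul_le_mul_of_nonneg_right hg hM0
    linarith
  have hsq : (δ * p) ^ 2 ≤ (4 * g * M) ^ 2 := pow_le_pow_left₀ (by positivity) hfin 2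
  have hsq2 : δ ^ 2 * p * p ≤ 16 * g ^ 2 * (c ^ 2 * k) * p := by
    have e1 : (4 * g * M) ^ 2 = 16 * g ^ 2 * (c ^ 2 * (k - lam) * p) := by
      rw [mul_pow, hMM]
      ring
    have e2 : (0 : ℝ) ≤ lam := Nat.cast_nonneg _
    have e3 : 16 * g ^ 2 * (c ^ 2 * (k - lam) * p) ≤ 16 * g ^ 2 * (c ^ 2 * k) * p := by
      have : 0 ≤ 16 * g ^ 2 * c ^ 2 * p := by positivity
      nlinarith
    calc δ ^ 2 * p * p = (δ * p) ^ 2 := by ring
      _ ≤ _ := hsq
      _ = _ := e1
      _ ≤ _ := e3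
  rcases hp0.eq_or_lt with h | h
  · rw [← h]
    simp only [mul_zero]
    positivity
  · have h3 : δ ^ 2 * p ≤ 16 * g ^ 2 * (c ^ 2 * k) := le_of_mul_le_mul_right hsq2 h
    have h4 : c ^ 2 * k * k = (v : ℝ) ^ 2 := by
      rw [hc]
      field_simp
    calc δ ^ 2 * k * p = (δ ^ 2 * p) * k := by ring
      _ ≤ (16 * g ^ 2 * (c ^ 2 * k)) * k := mul_le_mul_of_nonneg_right h3 hk0.le
      _ = 16 * g ^ 2 * (c ^ 2 * k * k) := by ring
      _ = _ := by rw [h4]

end

end Pool.Agent.H700.HD
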