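import Pool.Agent.H700.HD.Design

/-!
# Symmetric designs: relations of small norm inside the incidence relation
-/

set_option autoImplicit false

namespace Pool.Agent.H700.HD

open Finset

section

variable {v : ℕ}

/-- the bipartite graph of a relation -/
def bip (R : Fin v → Fin v → Prop) : SimpleGraph (Fin v ⊕ Fin v) where
  Adj a b := match a, b with
    | Sum.inl i, Sum.inr j => R i j
    | Sum.inr j, Sum.inl i => R i j
    | _, _ => False
  symm := ⟨fun a b h => by
    rcases a with a | a <;> rcases b with b | b <;> exact h⟩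
  loopless := ⟨fun a h => by
    rcases a with a | a <;> exact h⟩

theorem bip_lr (R : Fin v → Fin v → Prop) (i j : Fin v) : (bip R).Adj (Sum.inl i) (Sum.inr j) ↔ R i j :=
  Iff.rfl

theorem bip_rl (R : Fin v → Fin v → Prop) (i j : Fin v) : (bip R).Adj (Sum.inr j) (Sum.inl i) ↔ R i j :=
  Iff.rfl

theorem bip_ll (R : Fin v → Fin v → Prop) (i j : Fin v) : ¬ (bip R).Adj (Sum.inl i) (Sum.inl j) :=
  fun h => h

theorem bip_rr (R : Fin v → Fin v → Prop) (i j : Fin v) : ¬ (bip R).Adj (Sum.inr i) (Sum.inr j) :=
  fun h => h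

open Classical in
theorem bip_edges (R : Fin v → Fin v → Prop) :
    (bip R).edgeFinset.card = (univ.filter fun z : Fin v × Fin v => R z.1 z.2).card := by
  have h1 := (bip R).sum_degrees_eq_twice_card_edges
  have h2 : ∀ a, (bip R).degree a = ∑ b, if (bip R).Adj a b then 1 else 0 := by
    intro a
    rw [← card_filter, ← SimpleGraph.card_neighborFinset_eq_degree]
    congr 1
    ext b
    simp
  have h3 : (univ.filter fun z : Fin v × Fin v => R z.1 z.2).card = ∑ i, ∑ j, if R i j then 1 else 0 := by
    rw [card_filter, Fintype.sum_prod_type]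
  rw [sum_congr rfl fun a _ => h2 a, Fintype.sum_sum_type] at h1
  simp only [Fintype.sum_sum_type, bip_lr, bip_rl, bip_ll, bip_rr, if_false, sum_const_zero, zero_add,
    add_zero] at h1
  rw [sum_comm (f := fun (j : Fin v) (i : Fin v) => if R i j then 1 else 0), ← h3] at h1
  omega

variable {k lam : ℕ} {B : Fin v → Finset (Fin v)}

open Classical in
theorem bip_common (hk : ∀ i, (B i).card = k)
    (hp : ∀ x y : Fin v, x ≠ y → (univ.filter (fun i => x ∈ B i ∧ y ∈ B i)).card = lam)
    (hlam : 1 ≤ lam) (R : Fin v → Fin v → Prop) (hR : ∀ i j, R i j → i ∈ B j)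
    (S : Finset (Fin v ⊕ Fin v)) (hS : S.card = 2) :
    (univ.filter fun c => ∀ a ∈ S, (bip R).Adj a c).card ≤ lam := by
  obtain ⟨a, b, hab, rfl⟩ := card_eq_two.1 hS
  have hmem : ∀ c, c ∈ (univ.filter fun c => ∀ a' ∈ ({a, b} : Finset (Fin v ⊕ Fin v)), (bip R).Adj a' c) →
      (bip R).Adj a c ∧ (bip R).Adj b c := by
    intro c hc
    rw [mem_filter] at hc
    exact ⟨hc.2 a (by simp), hc.2 b (by simp)⟩
  rcases a with x | x <;> rcases b with y | y
  · have hxy : x ≠ y := fun e => hab (by rw [e])
    calc _ ≤ ((univ.filter fun i => x ∈ B i ∧ y ∈ B i).map ⟨Sum.inr, Sum.inr_injective⟩ :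
          Finset (Fin v ⊕ Fin v)).card := by
          refine card_le_card fun c hc => ?_
          obtain ⟨h1, h2⟩ := hmem c hc
          rcases c with c | c
          · exact absurd h1 (bip_ll R x c)
          · rw [mem_map]
            exact ⟨c, by
              rw [mem_filter]
              exact ⟨mem_univ _, hR _ _ h1, hR _ _ h2⟩, rfl⟩
      _ = lam := by rw [card_map, hp x y hxy]
  · have : (univ.filter fun c => ∀ a' ∈ ({Sum.inl x, Sum.inr y} : Finset (Fin v ⊕ Fin v)),
        (bip R).Adj a' c) = ∅ := by
      rw [eq_empty_iff_forall_notMem]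
      intro c hc
      obtain ⟨h1, h2⟩ := hmem c hc
      rcases c with c | c
      · exact bip_ll R x c h1
      · exact bip_rr R y c h2
    rw [this]
    simp
  · have : (univ.filter fun c => ∀ a' ∈ ({Sum.inr x, Sum.inl y} : Finset (Fin v ⊕ Fin v)),
        (bip R).Adj a' c) = ∅ := by
      rw [eq_empty_iff_forall_notMem]
      intro c hc
      obtain ⟨h1, h2⟩ := hmem c hc
      rcases c with c | c
      · exact bip_ll R y c h2
      · exact bip_rr R x c h1
    rw [this]
    simp
  · have hxy : x ≠ y := fun e => hab (by rw [e])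
    calc _ ≤ ((B x ∩ B y).map ⟨Sum.inl, Sum.inl_injective⟩ : Finset (Fin v ⊕ Fin v)).card := by
          refine card_le_card fun c hc => ?_
          obtain ⟨h1, h2⟩ := hmem c hc
          rcases c with c | c
          · rw [mem_map]
            exact ⟨c, mem_inter.2 ⟨hR _ _ h1, hR _ _ h2⟩, rfl⟩
          · exact absurd h1 (bip_rr R x c)
      _ = lam := by rw [card_map, Pool.Agent.Y422.TG.Design.dual B hk hp hlam hxy]

open Classical in
theorem relation_le (hk : ∀ i, (B i).card = k)
    (hp : ∀ x y : Fin v, x ≠ y → (univ.filter (fun i => x ∈ B i ∧ y ∈ B i)).card = lam)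
    (hlam : 1 ≤ lam) (R : Fin v → Fin v → Prop) (hR : ∀ i j, R i j → i ∈ B j) (g : ℝ)
    (hN : NormLE (fun i j => if R i j then (1 : ℝ) else 0) g) :
    ((univ.filter fun z : Fin v × Fin v => R z.1 z.2).card : ℝ) ≤ 160 * lam * g ^ 2 * v := by
  obtain ⟨L, x, y, hx, hy, h⟩ := hN
  have h0 : ∀ i j, ¬ R i j → ∑ l, x i l * y j l = 0 := by
    intro i j hij
    rw [← h i j]
    exact if_neg hij
  have h1 : ∀ i j, R i j → ∑ l, x i l * y j l = 1 := by
    intro i j hij
    rw [← h i j]
    exact if_pos hij
  have h0' : ∀ i j, ¬ R i j → ∑ l, y j l * x i l = 0 := by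
    intro i j hij
    rw [← h0 i j hij]
    exact sum_congr rfl fun l _ => mul_comm _ _
  have h1' : ∀ i j, R i j → ∑ l, y j l * x i l = 1 := by
    intro i j hij
    rw [← h1 i j hij]
    exact sum_congr rfl fun l _ => mul_comm _ _
  set p : Fin v ⊕ Fin v → Fin L ⊕ Fin L → ℝ :=
    fun a => Sum.elim (fun i => Sum.elim (x i) (fun _ => 0)) (fun j => Sum.elim (fun _ => 0) (y j)) a with hp'
  set q : Fin v ⊕ Fin v → Fin L ⊕ Fin L → ℝ :=
    fun a => Sum.elim (fun i => Sum.elim (fun _ => 0) (x i)) (fun j => Sum.elim (y j) (fun _ => 0)) a with hq'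
  have hpq : ∀ a b, ∑ l, p a l * q b l =
      match a, b with
      | Sum.inl i, Sum.inr j => ∑ l, x i l * y j l
      | Sum.inr j, Sum.inl i => ∑ l, y j l * x i l
      | _, _ => 0 := by
    intro a b
    rcases a with i | i <;> rcases b with j | j <;> simp [hp', hq', Fintype.sum_sum_type]
  have key := Pool.Agent.TH528.GN.edges_le (bip R) 2 lam le_rfl hlam
    (fun S hS => bip_common hk hp hlam R hR S hS) p q 1 g ?_ ?_ ?_ ?_
  · rw [bip_edges] at key
    calc _ ≤ _ := key
      _ = _ := by
        rw [Fintype.card_sum, Fintype.card_fin]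
        push_cast
        ring
  · intro a b hab
    rw [hpq]
    rcases a with i | i <;> rcases b with j | j
    · rfl
    · exact h0 i j hab
    · exact h0' j i hab
    · rfl
  · intro a b hab
    rw [hpq]
    rcases a with i | i <;> rcases b with j | j
    · exact absurd hab (bip_ll R i j)
    · have e : ∑ l, x i l * y j l = 1 := h1 i j hab
      show 1 ≤ |∑ l, x i l * y j l| ∧ |∑ l, x i l * y j l| ≤ 1
      rw [e]
      norm_num
    · have e : ∑ l, y i l * x j l = 1 := h1' j i hab
      show 1 ≤ |∑ l, y i l * x j l| ∧ |∑ l, y i l * x j l| ≤ 1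
      rw [e]
      norm_num
    · exact absurd hab (bip_rr R i j)
  · intro a
    rcases a with i | i
    · simpa [hp', Fintype.sum_sum_type] using hx i
    · simpa [hp', Fintype.sum_sum_type] using hy i
  · intro a
    rcases a with i | i
    · simpa [hq', Fintype.sum_sum_type] using hx i
    · simpa [hq', Fintype.sum_sum_type] using hy i

open Classical in
/-- the number of relations of norm at most `g` which cover the incidences -/
theorem union_le (hv : 1 ≤ v) (hk : ∀ i, (B i).card = k)
    (hp : ∀ x y : Fin v, x ≠ y → (univ.filter (fun i => x ∈ B i ∧ y ∈ B i)).card = lam)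
    (hlam : 1 ≤ lam) (t : ℕ) (R : Fin t → Fin v → Fin v → Prop)
    (hR : ∀ i j, i ∈ B j ↔ ∃ r, R r i j) (g : ℝ)
    (hN : ∀ r, NormLE (fun i j => if R r i j then (1 : ℝ) else 0) g) :
    (k : ℝ) ≤ 160 * lam * (t * g ^ 2) := by
  have h1 : (v * k : ℕ) ≤ ∑ r, (univ.filter fun z : Fin v × Fin v => R r z.1 z.2).card := by
    have e1 : (univ.filter fun z : Fin v × Fin v => z.1 ∈ B z.2).card = v * k := by
      rw [card_filter, Fintype.sum_prod_type_right]
      have : ∀ j : Fin v, ∑ i : Fin v, (if i ∈ B j then 1 else 0) = k := by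
        intro j
        rw [← card_filter, ← hk j]
        congr 1
        ext x
        simp
      rw [sum_congr rfl fun j _ => this j, sum_const, card_univ, Fintype.card_fin, smul_eq_mul]
    rw [← e1]
    calc _ ≤ (univ.biUnion fun r => univ.filter fun z : Fin v × Fin v => R r z.1 z.2).card := by
          refine card_le_card fun z hz => ?_
          rw [mem_filter] at hz
          obtain ⟨r, hr⟩ := (hR _ _).1 hz.2
          rw [mem_biUnion]
          exact ⟨r, mem_univ _, by rw [mem_filter]; exact ⟨mem_univ _, hr⟩⟩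
      _ ≤ _ := card_biUnion_le
  have h2 : (v : ℝ) * k ≤ ∑ _r : Fin t, 160 * lam * g ^ 2 * (v : ℝ) := by
    calc (v : ℝ) * k ≤ ∑ r, ((univ.filter fun z : Fin v × Fin v => R r z.1 z.2).card : ℝ) := by
          exact_mod_cast h1
      _ ≤ _ := sum_le_sum fun r _ => relation_le hk hp hlam (R r)
          (fun i j h => (hR i j).2 ⟨r, h⟩) g (hN r)
  rw [sum_const, card_univ, Fintype.card_fin, nsmul_eq_mul] at h2
  have hv0 : (0 : ℝ) < v := by exact_mod_cast hv
  have h3 : (v : ℝ) * k ≤ v * (160 * lam * (t * g ^ 2)) := by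
    calc (v : ℝ) * k ≤ _ := h2
      _ = _ := by ring
  exact le_of_mul_le_mul_left h3 hv0

open Classical in
/-- a covering by few relations of given norm -/
theorem exists_cover (hk : ∀ i, (B i).card = k) (m : ℕ) (hm : 1 ≤ m) :
    ∃ (t : ℕ) (R : Fin t → Fin v → Fin v → Prop), t * m ≤ k + m ∧
      (∀ i j, i ∈ B j ↔ ∃ r, R r i j) ∧
      ∀ r, NormLE (fun i j => if R r i j then (1 : ℝ) else 0) (Real.sqrt m) := by
  set pos : Fin v → Fin v → ℕ := fun i j => ((B j).filter fun i' => i' < i).card with hpos
  have hlt : ∀ i j, i ∈ B j → pos i j < k := by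
    intro i j hij
    rw [← hk j]
    refine card_lt_card (Finset.ssubset_iff_subset_ne.2 ⟨filter_subset _ _, fun e => ?_⟩)
    have : i ∈ (B j).filter fun i' => i' < i := by rw [e]; exact hij
    exact absurd (mem_filter.1 this).2 (lt_irrefl _)
  have hinj : ∀ j i i', i ∈ B j → i' ∈ B j → pos i j = pos i' j → i = i' := by
    intro j
    have aux : ∀ i i', i ∈ B j → i < i' → pos i j < pos i' j := by
      intro i i' hi hii
      refine card_lt_card (Finset.ssubset_iff_subset_ne.2 ⟨fun x hx => ?_, fun e => ?_⟩)
      · rw [mem_filter] at hx ⊢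
        exact ⟨hx.1, hx.2.trans hii⟩
      · have : i ∈ (B j).filter fun x => x < i := by
          rw [e, mem_filter]
          exact ⟨hi, hii⟩
        exact absurd (mem_filter.1 this).2 (lt_irrefl _)
    intro i i' hi hi' e
    rcases lt_trichotomy i i' with h | h | h
    · exact absurd e (aux i i' hi h).ne
    · exact h
    · exact absurd e (aux i' i hi' h).ne'
  refine ⟨k / m + 1, fun r i j => i ∈ B j ∧ pos i j / m = r, ?_, ?_, ?_⟩
  · have := Nat.div_mul_le_self k m
    rw [add_mul, one_mul]
    omega
  · intro i j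
    constructor
    · intro hij
      refine ⟨⟨pos i j / m, ?_⟩, hij, rfl⟩
      exact Nat.lt_succ_of_le (Nat.div_le_div_right (hlt i j hij).le)
    · rintro ⟨r, h, _⟩
      exact h
  · intro r
    refine (@NormLE.of_columns _ _ _ (fun i j => i ∈ B j ∧ pos i j / m = r) m hm
      (fun i j => Classical.propDecidable _) fun j => ?_).congr fun i j => rfl
    refine le_trans (card_le_card (t := (B j).filter fun i => pos i j / m = r) fun i hi => ?_) ?_
    · simp only [mem_filter] at hi ⊢
      exact hi.2
    calc ((B j).filter fun i => pos i j / m = r).card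
        = (((B j).filter fun i => pos i j / m = r).image fun i => pos i j).card := by
          rw [card_image_of_injOn]
          intro i hi i' hi' e
          rw [mem_coe, mem_filter] at hi hi'
          exact hinj j i i' hi.1 hi'.1 e
      _ ≤ (Finset.Ico (r.1 * m) (r.1 * m + m)).card := by
          refine card_le_card fun a ha => ?_
          rw [mem_image] at ha
          obtain ⟨i, hi, rfl⟩ := ha
          rw [mem_filter] at hi
          have h1 := hi.2
          rw [mem_Ico]
          have h2 := Nat.div_add_mod (pos i j) m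
          have h3 := Nat.mod_lt (pos i j) (by omega : 0 < m)
          rw [h1, mul_comm] at h2
          constructor <;> omega
      _ = m := by
          rw [Nat.card_Ico]
          omega

end

end Pool.Agent.H700.HD
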