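import Mathlib

/-!
# Real matrices of small factorization norm, and trees of equality tests
-/

set_option autoImplicit false

namespace Pool.Agent.H700.HD

open Finset

/-- The real matrix `F` has factorization norm at most `g`: there are vectors `x i`, `y j` of squared length at
most `g` with `F i j = ⟨x i, y j⟩`. -/
def NormLE {X Y : Type} (F : X → Y → ℝ) (g : ℝ) : Prop :=
  ∃ (L : ℕ) (x : X → Fin L → ℝ) (y : Y → Fin L → ℝ),
    (∀ i, ∑ l, x i l ^ 2 ≤ g) ∧ (∀ j, ∑ l, y j l ^ 2 ≤ g) ∧ ∀ i j, F i j = ∑ l, x i l * y j l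

variable {X Y : Type}

theorem NormLE.of_fintype {S : Type} [Fintype S] {F : X → Y → ℝ} {g : ℝ} (x : X → S → ℝ) (y : Y → S → ℝ)
    (hx : ∀ i, ∑ l, x i l ^ 2 ≤ g) (hy : ∀ j, ∑ l, y j l ^ 2 ≤ g) (h : ∀ i j, F i j = ∑ l, x i l * y j l) :
    NormLE F g := by
  classical
  let e := Fintype.equivFin S
  refine ⟨Fintype.card S, fun i l => x i (e.symm l), fun j l => y j (e.symm l), ?_, ?_, ?_⟩
  · intro i
    rw [e.symm.sum_comp (fun l => x i l ^ 2)]
    exact hx i
  · intro j
    rw [e.symm.sum_comp (fun l => y j l ^ 2)]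
    exact hy j
  · intro i j
    rw [e.symm.sum_comp (fun l => x i l * y j l)]
    exact h i j

theorem NormLE.mono {F : X → Y → ℝ} {g g' : ℝ} (h : NormLE F g) (hg : g ≤ g') : NormLE F g' := by
  obtain ⟨L, x, y, hx, hy, h⟩ := h
  exact ⟨L, x, y, fun i => (hx i).trans hg, fun j => (hy j).trans hg, h⟩

theorem NormLE.congr {F F' : X → Y → ℝ} {g : ℝ} (h : NormLE F g) (hF : ∀ i j, F' i j = F i j) :
    NormLE F' g := by
  have : F' = F := funext fun i => funext fun j => hF i j
  rw [this]
  exact h

theorem NormLE.add {F F' : X → Y → ℝ} {g g' : ℝ} (h : NormLE F g) (h' : NormLE F' g') :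
    NormLE (fun i j => F i j + F' i j) (g + g') := by
  obtain ⟨L, x, y, hx, hy, h⟩ := h
  obtain ⟨L', x', y', hx', hy', h'⟩ := h'
  refine NormLE.of_fintype (S := Fin L ⊕ Fin L') (fun i => Sum.elim (x i) (x' i))
    (fun j => Sum.elim (y j) (y' j)) ?_ ?_ ?_
  · intro i
    rw [Fintype.sum_sum_type]
    exact add_le_add (hx i) (hx' i)
  · intro j
    rw [Fintype.sum_sum_type]
    exact add_le_add (hy j) (hy' j)
  · intro i j
    rw [Fintype.sum_sum_type, h, h']
    rfl

theorem NormLE.mul {F F' : X → Y → ℝ} {g g' : ℝ} (h : NormLE F g) (h' : NormLE F' g') (hg : 0 ≤ g) :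
    NormLE (fun i j => F i j * F' i j) (g * g') := by
  obtain ⟨L, x, y, hx, hy, h⟩ := h
  obtain ⟨L', x', y', hx', hy', h'⟩ := h'
  refine NormLE.of_fintype (S := Fin L × Fin L') (fun i p => x i p.1 * x' i p.2)
    (fun j p => y j p.1 * y' j p.2) ?_ ?_ ?_
  · intro i
    have e : ∑ p : Fin L × Fin L', (x i p.1 * x' i p.2) ^ 2 = (∑ l, x i l ^ 2) * ∑ l, x' i l ^ 2 := by
      rw [Fintype.sum_prod_type, Finset.sum_mul_sum]
      exact sum_congr rfl fun a _ => sum_congr rfl fun b _ => by ring
    rw [e]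
    exact mul_le_mul (hx i) (hx' i) (sum_nonneg fun l _ => sq_nonneg _) hg
  · intro j
    have e : ∑ p : Fin L × Fin L', (y j p.1 * y' j p.2) ^ 2 = (∑ l, y j l ^ 2) * ∑ l, y' j l ^ 2 := by
      rw [Fintype.sum_prod_type, Finset.sum_mul_sum]
      exact sum_congr rfl fun a _ => sum_congr rfl fun b _ => by ring
    rw [e]
    exact mul_le_mul (hy j) (hy' j) (sum_nonneg fun l _ => sq_nonneg _) hg
  · intro i j
    rw [h, h', Fintype.sum_prod_type, Finset.sum_mul_sum]
    exact sum_congr rfl fun a _ => sum_congr rfl fun b _ => by ring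

theorem NormLE.smul {F : X → Y → ℝ} {g : ℝ} (c : ℝ) (hc : 0 ≤ c) (h : NormLE F g) :
    NormLE (fun i j => c * F i j) (c * g) := by
  obtain ⟨L, x, y, hx, hy, h⟩ := h
  refine ⟨L, fun i l => Real.sqrt c * x i l, fun j l => Real.sqrt c * y j l, ?_, ?_, ?_⟩
  · intro i
    have e : ∑ l, (Real.sqrt c * x i l) ^ 2 = c * ∑ l, x i l ^ 2 := by
      rw [mul_sum]
      exact sum_congr rfl fun l _ => by rw [mul_pow, Real.sq_sqrt hc]
    rw [e]
    exact mul_le_mul_of_nonneg_left (hx i) hc
  · intro j
    have e : ∑ l, (Real.sqrt c * y j l) ^ 2 = c * ∑ l, y j l ^ 2 := by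
      rw [mul_sum]
      exact sum_congr rfl fun l _ => by rw [mul_pow, Real.sq_sqrt hc]
    rw [e]
    exact mul_le_mul_of_nonneg_left (hy j) hc
  · intro i j
    show c * F i j = _
    rw [h, mul_sum]
    refine sum_congr rfl fun l _ => ?_
    have := Real.mul_self_sqrt hc
    calc c * (x i l * y j l) = (Real.sqrt c * Real.sqrt c) * (x i l * y j l) := by rw [this]
      _ = _ := by ring

theorem NormLE.neg {F : X → Y → ℝ} {g : ℝ} (h : NormLE F g) : NormLE (fun i j => - F i j) g := by
  obtain ⟨L, x, y, hx, hy, h⟩ := h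
  refine ⟨L, fun i l => - x i l, y, ?_, hy, ?_⟩
  · intro i
    simpa using hx i
  · intro i j
    simp only [neg_mul, sum_neg_distrib]
    rw [h]

theorem NormLE.zero : NormLE (fun (_ : X) (_ : Y) => (0 : ℝ)) 0 :=
  ⟨0, fun _ _ => 0, fun _ _ => 0, by simp, by simp, by simp⟩

theorem NormLE.one : NormLE (fun (_ : X) (_ : Y) => (1 : ℝ)) 1 :=
  ⟨1, fun _ _ => 1, fun _ _ => 1, by simp, by simp, by simp⟩

theorem NormLE.sum {ι : Type} (s : Finset ι) (F : ι → X → Y → ℝ) (g : ℝ)
    (h : ∀ a ∈ s, NormLE (F a) g) : NormLE (fun i j => ∑ a ∈ s, F a i j) (s.card * g) := by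
  classical
  induction s using Finset.induction_on with
  | empty => simpa using NormLE.zero
  | insert a s ha ih =>
    have h1 := ih fun b hb => h b (mem_insert_of_mem hb)
    have h2 := (h a (mem_insert_self a s)).add h1
    refine (h2.congr fun i j => ?_).mono ?_
    · rw [sum_insert ha]
    · rw [card_insert_of_notMem ha]
      push_cast
      linarith

/-- an equality test -/
theorem NormLE.eq_test [Finite X] (f : X → ℕ) (g : Y → ℕ) :
    NormLE (fun i j => if f i = g j then (1 : ℝ) else 0) 1 := by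
  classical
  obtain ⟨N, hN⟩ : ∃ N, ∀ i, f i < N := by
    obtain ⟨N, hN⟩ := (Set.finite_range f).bddAbove
    exact ⟨N + 1, fun i => Nat.lt_succ_of_le (hN ⟨i, rfl⟩)⟩
  refine ⟨N, fun i l => if f i = l then 1 else 0, fun j l => if g j = l then 1 else 0, ?_, ?_, ?_⟩
  · intro i
    have : ∑ l : Fin N, (if f i = (l : ℕ) then (1 : ℝ) else 0) ^ 2 ≤
        ∑ l ∈ range N, (if f i = l then (1 : ℝ) else 0) := by
      rw [← Fin.sum_univ_eq_sum_range (fun l => if f i = l then (1 : ℝ) else 0)]
      exact sum_le_sum fun l _ => by split_ifs <;> norm_num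
    refine this.trans ?_
    rw [sum_ite_eq]
    split_ifs <;> norm_num
  · intro j
    have : ∑ l : Fin N, (if g j = (l : ℕ) then (1 : ℝ) else 0) ^ 2 ≤
        ∑ l ∈ range N, (if g j = l then (1 : ℝ) else 0) := by
      rw [← Fin.sum_univ_eq_sum_range (fun l => if g j = l then (1 : ℝ) else 0)]
      exact sum_le_sum fun l _ => by split_ifs <;> norm_num
    refine this.trans ?_
    rw [sum_ite_eq]
    split_ifs <;> norm_num
  · intro i j
    rw [Fin.sum_univ_eq_sum_range (fun l => (if f i = l then (1 : ℝ) else 0) * (if g j = l then 1 else 0)) N]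
    rw [Finset.sum_eq_single (f i)]
    · by_cases h : f i = g j
      · simp [h]
      · have h' : ¬ g j = f i := fun e => h e.symm
        simp [h, h']
    · intro b _ hb
      rw [if_neg (fun e => hb e.symm), zero_mul]
    · intro h
      exact absurd (mem_range.2 (hN i)) h

/-- Trees of equality tests. A leaf gives the answer, an inner node tests whether `f i = g j`, for the row `i`
and the column `j`. -/
inductive EqTree (X Y : Type) : Type
  | leaf (answer : Bool) : EqTree X Y
  | test (f : X → ℕ) (g : Y → ℕ) (yes no : EqTree X Y) : EqTree X Y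

/-- The largest number of tests. -/
def EqTree.depth {X Y : Type} : EqTree X Y → ℕ
  | .leaf _ => 0
  | .test _ _ yes no => max yes.depth no.depth + 1

/-- The answer for the row `i` and the column `j`. -/
def EqTree.run {X Y : Type} : EqTree X Y → X → Y → Bool
  | .leaf answer, _, _ => answer
  | .test f g yes no, i, j => if f i = g j then yes.run i j else no.run i j

theorem EqTree.norm [Finite X] (t : EqTree X Y) :
    NormLE (fun i j => if t.run i j = true then (1 : ℝ) else 0) (3 ^ t.depth) := by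
  induction t with
  | leaf b =>
    cases b with
    | false =>
      refine (NormLE.zero.congr fun i j => ?_).mono (by positivity)
      simp [EqTree.run]
    | true =>
      refine (NormLE.one.congr fun i j => ?_).mono ?_
      · simp [EqTree.run]
      · simp [EqTree.depth]
  | test f g yes no ih1 ih2 =>
    have hE := NormLE.eq_test (X := X) (Y := Y) f g
    have hN : NormLE (fun i j => 1 + - (if f i = g j then (1 : ℝ) else 0)) (1 + 1) :=
      NormLE.one.add hE.neg
    have h1 := hE.mul ih1 (by norm_num)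
    have h2 := hN.mul ih2 (by norm_num)
    refine ((h1.add h2).congr fun i j => ?_).mono ?_
    · by_cases h : f i = g j
      · simp [EqTree.run, h]
      · simp [EqTree.run, h]
    · show 1 * 3 ^ yes.depth + (1 + 1) * 3 ^ no.depth ≤ (3 : ℝ) ^ (max yes.depth no.depth + 1)
      have e1 : (3 : ℝ) ^ yes.depth ≤ 3 ^ max yes.depth no.depth :=
        pow_le_pow_right₀ (by norm_num) (le_max_left _ _)
      have e2 : (3 : ℝ) ^ no.depth ≤ 3 ^ max yes.depth no.depth :=
        pow_le_pow_right₀ (by norm_num) (le_max_right _ _)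
      rw [pow_succ]
      linarith

/-- a matrix of zeros and ones with at most `m` ones in every column -/
theorem NormLE.of_columns [Fintype X] (R : X → Y → Prop) (m : ℕ) (hm : 1 ≤ m)
    [∀ i j, Decidable (R i j)]
    (h : ∀ j, (univ.filter fun i => R i j).card ≤ m) :
    NormLE (fun i j => if R i j then (1 : ℝ) else 0) (Real.sqrt m) := by
  classical
  have hm0 : (0 : ℝ) < m := by exact_mod_cast hm
  have hs : 0 < Real.sqrt m := Real.sqrt_pos.2 hm0
  have hq : 0 < Real.sqrt (Real.sqrt m) := Real.sqrt_pos.2 hs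
  have hqq : Real.sqrt (Real.sqrt m) ^ 2 = Real.sqrt m := Real.sq_sqrt hs.le
  refine NormLE.of_fintype (S := X) (fun i l => if i = l then Real.sqrt (Real.sqrt m) else 0)
    (fun j l => if R l j then (Real.sqrt (Real.sqrt m))⁻¹ else 0) ?_ ?_ ?_
  · intro i
    have : ∀ l, (if i = l then Real.sqrt (Real.sqrt m) else 0) ^ 2 = if i = l then Real.sqrt m else 0 := by
      intro l
      split_ifs
      · exact hqq
      · norm_num
    rw [sum_congr rfl fun l _ => this l, sum_ite_eq, if_pos (mem_univ _)]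
  · intro j
    have : ∀ l, (if R l j then (Real.sqrt (Real.sqrt m))⁻¹ else 0) ^ 2 =
        (if R l j then (1 : ℝ) else 0) * (Real.sqrt m)⁻¹ := by
      intro l
      split_ifs
      · rw [inv_pow, hqq, one_mul]
      · norm_num
    rw [sum_congr rfl fun l _ => this l, ← sum_mul, sum_boole, ← div_eq_mul_inv, div_le_iff₀ hs,
      Real.mul_self_sqrt hm0.le]
    exact_mod_cast h j
  · intro i j
    have : ∀ l, (if i = l then Real.sqrt (Real.sqrt m) else 0) * (if R l j then (Real.sqrt (Real.sqrt m))⁻¹ else 0)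
        = if i = l then (if R l j then (1 : ℝ) else 0) else 0 := by
      intro l
      by_cases h1 : i = l
      · rw [if_pos h1, if_pos h1]
        by_cases h2 : R l j
        · rw [if_pos h2, if_pos h2]
          exact mul_inv_cancel₀ hq.ne'
        · rw [if_neg h2, if_neg h2, mul_zero]
      · rw [if_neg h1, if_neg h1, zero_mul]
    rw [sum_congr rfl fun l _ => this l, sum_ite_eq, if_pos (mem_univ _)]

end Pool.Agent.H700.HD
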